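import Pool.Agent.R246.SK.Defs

/-!
# SK-PSI2: the eigenfunctions of `a D` are orthonormal and complete
-/

set_option autoImplicit false

namespace Pool.Agent.R371.SK

open scoped ContDiff ComplexConjugate
open Filter MeasureTheory Set
open Pool.Agent.R246.SK

section

variable {a : ℝ → ℝ}

lemma cont_inv (ha : PP a) : Continuous (fun x => 1 / a x) :=
  continuous_const.div ha.1.continuous fun x => (ha.2.2 x).ne'

lemma ss_deriv (ha : PP a) (t : ℝ) : HasDerivAt (ss a) (1 / a t) t :=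
  intervalIntegral.integral_hasDerivAt_right ((cont_inv ha).intervalIntegrable _ _)
    ((cont_inv ha).stronglyMeasurableAtFilter _ _) (cont_inv ha).continuousAt

lemma ss_cont (ha : PP a) : Continuous (ss a) :=
  continuous_iff_continuousAt.2 fun t => (ss_deriv ha t).continuousAt

lemma ss_mono (ha : PP a) : StrictMono (ss a) := by
  refine strictMono_of_deriv_pos fun t => ?_
  rw [(ss_deriv ha t).deriv]
  exact one_div_pos.2 (ha.2.2 t)

lemma LL_pos (ha : PP a) : 0 < LL a := by
  have h := ss_mono ha Real.two_pi_pos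
  have h0 : ss a 0 = 0 := intervalIntegral.integral_same
  rw [h0] at h
  exact h

lemma ss_surj (ha : PP a) : Function.Surjective (ss a) := by
  have hper : Function.Periodic (fun x => 1 / a x) (2 * Real.pi) := by
    intro x
    change 1 / a (x + 2 * Real.pi) = 1 / a x
    rw [ha.2.1 x]
  have hint : IntervalIntegrable (fun x => 1 / a x) volume 0 (2 * Real.pi) :=
    (cont_inv ha).intervalIntegrable _ _
  refine (ss_cont ha).surjective ?_ ?_
  · exact hper.tendsto_atTop_intervalIntegral_of_pos' hint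
      (fun x => one_div_pos.2 (ha.2.2 x)) Real.two_pi_pos
  · exact hper.tendsto_atBot_intervalIntegral_of_pos' hint
      (fun x => one_div_pos.2 (ha.2.2 x)) Real.two_pi_pos

lemma cov (ha : PP a) (F : ℝ → ℂ) (hF : Continuous F) :
    ∫ t in (0 : ℝ)..(2 * Real.pi), (1 / a t) • F (ss a t) = ∫ x in (0 : ℝ)..LL a, F x := by
  have h := intervalIntegral.integral_deriv_smul_comp (a := 0) (b := 2 * Real.pi) (f := ss a)
    (f' := fun t => 1 / a t) (g := F) (fun t _ => ss_deriv ha t) (cont_inv ha).continuousOn hF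
  have h0 : ss a 0 = 0 := intervalIntegral.integral_same
  rw [h0] at h
  exact h

lemma conj_psi (n : ℤ) (t : ℝ) : conj (psi a n t) =
    ((1 / Real.sqrt (LL a) : ℝ) : ℂ) *
      Complex.exp (2 * Real.pi * Complex.I * ((-n : ℤ) : ℂ) * (ss a t : ℝ) / (LL a : ℝ)) := by
  unfold psi mu
  rw [map_mul, Complex.conj_ofReal, ← Complex.exp_conj, map_mul, Complex.conj_I,
    Complex.conj_ofReal]
  congr 2
  push_cast
  ring

lemma psi_eq (n : ℤ) (t : ℝ) : psi a n t =
    ((1 / Real.sqrt (LL a) : ℝ) : ℂ) *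
      Complex.exp (2 * Real.pi * Complex.I * (n : ℂ) * (ss a t : ℝ) / (LL a : ℝ)) := by
  unfold psi mu
  congr 2
  push_cast
  ring

lemma exp_int {L : ℝ} (hL : 0 < L) (n : ℤ) (hn : n ≠ 0) :
    ∫ x in (0 : ℝ)..L, Complex.exp (2 * Real.pi * Complex.I * (n : ℂ) * (x : ℝ) / (L : ℝ)) = 0 := by
  have hL' : (L : ℂ) ≠ 0 := by exact_mod_cast hL.ne'
  have hc : (2 * Real.pi * Complex.I * (n : ℂ) / (L : ℝ) : ℂ) ≠ 0 := by
    have h1 : (n : ℂ) ≠ 0 := by exact_mod_cast hn
    have h2 : (Real.pi : ℂ) ≠ 0 := by exact_mod_cast Real.pi_ne_zero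
    exact div_ne_zero (mul_ne_zero (mul_ne_zero (mul_ne_zero two_ne_zero h2)
      Complex.I_ne_zero) h1) hL'
  have h1 : ∀ x : ℝ, Complex.exp (2 * Real.pi * Complex.I * (n : ℂ) * (x : ℝ) / (L : ℝ)) =
      Complex.exp ((2 * Real.pi * Complex.I * (n : ℂ) / (L : ℝ)) * x) := by
    intro x
    congr 1
    ring
  simp_rw [h1]
  rw [integral_exp_mul_complex hc]
  have h2 : Complex.exp ((2 * Real.pi * Complex.I * (n : ℂ) / (L : ℝ)) * (L : ℝ)) = 1 := by
    have h3 : (2 * Real.pi * Complex.I * (n : ℂ) / (L : ℝ)) * (L : ℝ) =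
        (n : ℂ) * (2 * Real.pi * Complex.I) := by
      field_simp
    rw [h3]
    exact Complex.exp_int_mul_two_pi_mul_I n
  rw [h2]
  simp

lemma sqrt_fac {L : ℝ} (hL : 0 < L) :
    (((1 / Real.sqrt L : ℝ) : ℂ) * ((1 / Real.sqrt L : ℝ) : ℂ)) = ((1 / L : ℝ) : ℂ) := by
  rw [← Complex.ofReal_mul]
  congr 1
  rw [div_mul_div_comm, one_mul, Real.mul_self_sqrt hL.le]

theorem on (ha : PP a) : ON a (psi a) := by
  intro i j
  have hL := LL_pos ha
  have h1 : ∀ t, psi a i t * conj (psi a j t) / (a t : ℂ) = (1 / a t) • ((fun x : ℝ =>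
      ((1 / LL a : ℝ) : ℂ) * Complex.exp (2 * Real.pi * Complex.I * ((i - j : ℤ) : ℂ) *
        (x : ℝ) / (LL a : ℝ))) (ss a t)) := by
    intro t
    rw [psi_eq, conj_psi]
    simp only []
    rw [← sqrt_fac hL, Complex.real_smul]
    have h2 : Complex.exp (2 * Real.pi * Complex.I * ((i - j : ℤ) : ℂ) * (ss a t : ℝ) /
        (LL a : ℝ)) = Complex.exp (2 * Real.pi * Complex.I * (i : ℂ) * (ss a t : ℝ) /
        (LL a : ℝ)) * Complex.exp (2 * Real.pi * Complex.I * ((-j : ℤ) : ℂ) * (ss a t : ℝ) /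
        (LL a : ℝ)) := by
      rw [← Complex.exp_add]
      congr 1
      push_cast
      ring
    rw [h2]
    push_cast
    ring
  unfold ip
  simp_rw [h1]
  rw [cov ha (fun x : ℝ => ((1 / LL a : ℝ) : ℂ) * Complex.exp (2 * Real.pi * Complex.I *
    ((i - j : ℤ) : ℂ) * (x : ℝ) / (LL a : ℝ))) (by fun_prop)]
  rw [intervalIntegral.integral_const_mul]
  by_cases hij : i = j
  · subst hij
    rw [if_pos rfl]
    have hL' : (LL a : ℂ) ≠ 0 := by exact_mod_cast hL.ne'
    simp [hL']
  · rw [if_neg hij, exp_int hL (i - j) (sub_ne_zero.2 hij), mul_zero]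

theorem cp (ha : PP a) : CP a (psi a) := by
  intro f hf
  have hL := LL_pos ha
  let e : ℝ ≃o ℝ := (ss_mono ha).orderIsoOfSurjective (ss a) (ss_surj ha)
  let r : ℝ → ℝ := e.symm
  have hr : Continuous r := e.symm.continuous
  have hrs : ∀ t, r (ss a t) = t := fun t => e.symm_apply_apply t
  have hg : Continuous (fun x => f (r x)) := hf.1.continuous.comp hr
  have hmem : MemLp (fun x => f (r x)) 2 (volume.restrict (Ioc 0 (LL a))) := by
    obtain ⟨C, hC⟩ := (isCompact_Icc (a := (0 : ℝ)) (b := LL a)).exists_bound_of_continuousOn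
      hg.continuousOn
    refine MemLp.of_bound hg.aestronglyMeasurable C ?_
    rw [ae_restrict_iff' measurableSet_Ioc]
    exact Filter.Eventually.of_forall fun x hx => hC x (Ioc_subset_Icc_self hx)
  have hP := hasSum_sq_fourierCoeffOn hL hmem
  have hP2 := hP.mul_left (LL a)
  have e1 : LL a * ((LL a - 0)⁻¹ • ∫ x in (0 : ℝ)..LL a, ‖f (r x)‖ ^ 2) = (ip a f f).re := by
    rw [sub_zero, smul_eq_mul, ← mul_assoc, mul_inv_cancel₀ hL.ne', one_mul]
    have h1 : ip a f f = ∫ x in (0 : ℝ)..LL a, ((‖f (r x)‖ ^ 2 : ℝ) : ℂ) := by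
      rw [← cov ha (fun x => ((‖f (r x)‖ ^ 2 : ℝ) : ℂ))
        (Complex.continuous_ofReal.comp (hg.norm.pow 2))]
      unfold ip
      refine intervalIntegral.integral_congr fun t _ => ?_
      rw [hrs, Complex.mul_conj, Complex.normSq_eq_norm_sq, Complex.real_smul]
      push_cast
      ring
    rw [h1, intervalIntegral.integral_ofReal, Complex.ofReal_re]
  have e2 : ∀ n : ℤ, LL a * ‖fourierCoeffOn hL (fun x => f (r x)) n‖ ^ 2 =
      ‖ip a f (psi a n)‖ ^ 2 := by
    intro n
    have h1 : ip a f (psi a n) = ((1 / Real.sqrt (LL a) : ℝ) : ℂ) *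
        ((LL a : ℂ) * fourierCoeffOn hL (fun x => f (r x)) n) := by
      rw [fourierCoeffOn_eq_integral]
      simp_rw [fourier_coe_apply]
      have h2 : ip a f (psi a n) = ∫ x in (0 : ℝ)..LL a, ((1 / Real.sqrt (LL a) : ℝ) : ℂ) *
          (Complex.exp (2 * Real.pi * Complex.I * ((-n : ℤ) : ℂ) * (x : ℝ) / (LL a : ℝ)) *
            f (r x)) := by
        rw [← cov ha (fun x => ((1 / Real.sqrt (LL a) : ℝ) : ℂ) *
          (Complex.exp (2 * Real.pi * Complex.I * ((-n : ℤ) : ℂ) * (x : ℝ) / (LL a : ℝ)) *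
            f (r x))) (continuous_const.mul (Continuous.mul (by fun_prop) hg))]
        unfold ip
        refine intervalIntegral.integral_congr fun t _ => ?_
        rw [hrs, conj_psi, Complex.real_smul]
        push_cast
        ring
      rw [h2, intervalIntegral.integral_const_mul]
      have hL' : (LL a : ℂ) ≠ 0 := by exact_mod_cast hL.ne'
      rw [sub_zero, Complex.real_smul]
      congr 1
      rw [← mul_assoc]
      have h3 : (LL a : ℂ) * ((1 / LL a : ℝ) : ℂ) = 1 := by
        push_cast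
        field_simp
      rw [h3, one_mul]
      simp only [smul_eq_mul]
    rw [h1, norm_mul, norm_mul, mul_pow, mul_pow, Complex.norm_real, Complex.norm_real,
      Real.norm_eq_abs, Real.norm_eq_abs, sq_abs, sq_abs, div_pow, Real.sq_sqrt hL.le]
    field_simp
  rw [e1] at hP2
  simp_rw [e2] at hP2
  exact hP2

end

theorem s_psi2 : S_PSI2 := fun _ ha => ⟨on ha, cp ha⟩

end Pool.Agent.R371.SK
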